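import Mathlib
import Pool.Agent.U180.NG.Stm2

/-!
# Project NG, package MGF: the moment generating function of a centred Bernoulli variable
-/

set_option autoImplicit false

namespace Pool.Agent.U72.NG

open Pool.Agent.U180.NG

/-- Taylor's formula of order three for the exponential function. -/
lemma taylor3 (x : ℝ) (hx : |x| ≤ 1) : |Real.exp x - (1 + x + x ^ 2 / 2)| ≤ |x| ^ 3 * (2 / 9) := by
  have h := Real.exp_bound (x := x) hx (n := 3) (by norm_num)
  simp only [Finset.sum_range_succ, Finset.sum_range_zero, Nat.factorial] at h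
  norm_num at h
  exact h

theorem t_MGF : S_MGF := by
  intro p t hp0 hp1 ht
  set E : ℝ := p * Real.exp (t * (1 - p)) + (1 - p) * Real.exp (-(t * p)) with hE
  obtain ⟨s, hs⟩ : ∃ s, s = |t| := ⟨_, rfl⟩
  have hs0 : 0 ≤ s := hs ▸ abs_nonneg t
  have hst : t ^ 2 = s ^ 2 := by rw [hs, sq_abs]
  rw [← hs] at ht ⊢
  obtain ⟨v, hv⟩ : ∃ v, v = p * (1 - p) := ⟨_, rfl⟩
  rw [← hv, hst]
  have hv0 : 0 ≤ v := hv ▸ mul_nonneg hp0 (by linarith)
  have hv1 : v ≤ 1 / 4 := by
    rw [hv]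
    nlinarith [sq_nonneg (p - 1 / 2)]
  have ha : |t * (1 - p)| = s * (1 - p) := by
    rw [abs_mul, ← hs, abs_of_nonneg (by linarith : (0 : ℝ) ≤ 1 - p)]
  have hb : |-(t * p)| = s * p := by
    rw [abs_neg, abs_mul, ← hs, abs_of_nonneg hp0]
  have h1 := taylor3 (t * (1 - p)) (by rw [ha]; nlinarith)
  have h2 := taylor3 (-(t * p)) (by rw [hb]; nlinarith)
  rw [ha] at h1
  rw [hb] at h2
  have h3 : |E - (1 + v * s ^ 2 / 2)| ≤ v * s ^ 3 * (2 / 9) := by
    have e1 : E - (1 + v * s ^ 2 / 2) =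
        p * (Real.exp (t * (1 - p)) - (1 + t * (1 - p) + (t * (1 - p)) ^ 2 / 2)) +
        (1 - p) * (Real.exp (-(t * p)) - (1 + -(t * p) + (-(t * p)) ^ 2 / 2)) := by
      rw [hE, ← hst, hv]
      ring
    rw [e1]
    refine (abs_add_le _ _).trans ?_
    rw [abs_mul, abs_mul, abs_of_nonneg hp0, abs_of_nonneg (by linarith : (0 : ℝ) ≤ 1 - p)]
    have h4 := mul_le_mul_of_nonneg_left h1 hp0
    have h5 := mul_le_mul_of_nonneg_left h2 (by linarith : (0 : ℝ) ≤ 1 - p)
    refine (add_le_add h4 h5).trans ?_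
    have h6 : p * ((s * (1 - p)) ^ 3 * (2 / 9)) + (1 - p) * ((s * p) ^ 3 * (2 / 9)) =
        v * s ^ 3 * (2 / 9) * (1 - 2 * v) := by
      rw [hv]
      ring
    rw [h6]
    have h7 : 0 ≤ v * s ^ 3 * (2 / 9) := by positivity
    nlinarith
  obtain ⟨h4, h5⟩ := abs_le.1 h3
  have hvs : 0 ≤ v * s ^ 3 := by positivity
  have hvs2 : 0 ≤ v * s ^ 2 := by positivity
  constructor
  · obtain ⟨u, hu⟩ : ∃ u, u = v * s ^ 2 / 2 - v * s ^ 3 * (2 / 9) := ⟨_, rfl⟩
    have hvs3 : v * s ^ 3 = v * s ^ 2 * s := by ring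
    have hu0 : 0 ≤ u := by
      rw [hu, hvs3]
      nlinarith
    have hu1 : u ≤ v * s ^ 2 / 2 := by
      rw [hu]
      nlinarith
    have h6 : 1 + u ≤ E := by
      rw [hu]
      linarith
    have h7 : Real.exp (u - u ^ 2) ≤ 1 + u := by
      have h8 : u - u ^ 2 ≤ u / (1 + u) := by
        rw [le_div_iff₀ (by linarith)]
        nlinarith [pow_nonneg hu0 3]
      have h9 : Real.exp (-(u / (1 + u))) ≥ 1 / (1 + u) := by
        have := Real.add_one_le_exp (-(u / (1 + u)))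
        have e : -(u / (1 + u)) + 1 = 1 / (1 + u) := by
          field_simp
          ring
        linarith
      rw [Real.exp_neg] at h9
      have h10 : Real.exp (u / (1 + u)) ≤ 1 + u := by
        have h11 := inv_anti₀ (by positivity) h9
        rw [inv_inv, one_div, inv_inv] at h11
        exact h11
      exact (Real.exp_le_exp.2 h8).trans h10
    refine (Real.exp_le_exp.2 ?_).trans (h7.trans h6)
    have h12 : u ^ 2 ≤ v * s ^ 3 * (1 / 64) := by
      have h13 : u ^ 2 ≤ (v * s ^ 2 / 2) ^ 2 := pow_le_pow_left₀ hu0 hu1 2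
      have h14 : (v * s ^ 2 / 2) ^ 2 = v * s ^ 3 * (v * s / 4) := by ring
      have h15 : v * s / 4 ≤ 1 / 64 := by nlinarith
      rw [h14] at h13
      exact h13.trans (mul_le_mul_of_nonneg_left h15 hvs)
    have h16 : (1 - 2 * s) * v * s ^ 2 / 2 = v * s ^ 2 / 2 - v * s ^ 3 := by ring
    rw [h16]
    nlinarith
  · have h6 : E ≤ 1 + (v * s ^ 2 / 2 + v * s ^ 3 * (2 / 9)) := by linarith
    refine h6.trans ?_
    have h7 := Real.add_one_le_exp (v * s ^ 2 / 2 + v * s ^ 3 * (2 / 9))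
    refine (by linarith : 1 + (v * s ^ 2 / 2 + v * s ^ 3 * (2 / 9)) ≤ _).trans
      (Real.exp_le_exp.2 ?_ : Real.exp (v * s ^ 2 / 2 + v * s ^ 3 * (2 / 9)) ≤ _)
    have h8 : (1 + 2 * s) * v * s ^ 2 / 2 = v * s ^ 2 / 2 + v * s ^ 3 := by ring
    rw [h8]
    nlinarith

end Pool.Agent.U72.NG
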